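import Pool.Agent.CSD.Main

/-!
# Countable groups whose topology is determined by an analytic set of sequences (MP_a9e3cf_lc)

THEOREM. For a countable Hausdorff topological group `G` the following are equivalent: some analytic set of sequences
which converge to `1` determines the topology of `G`; `G` is sequential and the set of all sequences which converge to
`1` is analytic; `G` is sequential and has an analytic topology; `G` is `k_ω` or metrizable. Hence the statements of Q1
and Q2 are equivalent to the statement that the topology of every countable sequential group is determined by an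
analytic set of sequences.
-/

set_option autoImplicit false

namespace Pool.Agent.Results.MP_a9e3cf_lc.AnalyticSequences

open Filter Topology MeasureTheory

/-- `X` is a quotient image of a topological sum of countably many compact spaces. -/
def IsKOmega (X : Type) [TopologicalSpace X] : Prop :=
  ∃ (K : ℕ → Type) (_ : ∀ n, TopologicalSpace (K n)) (_ : ∀ n, CompactSpace (K n))
    (q : (Σ n, K n) → X), IsQuotientMap q

/-- The topology of `X`, as a set of characteristic functions, is analytic (a continuous image of the irrationals). -/
def IsAnalytic (X : Type) [TopologicalSpace X] : Prop :=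
  AnalyticSet {φ : X → Bool | IsOpen {x | φ x = true}}

/-- The set `𝒜` of sequences of elements of the countable set `G` is analytic (empty or a continuous image of the
irrationals), where `G` has the discrete topology. -/
def IsAnalyticFamily {G : Type} (𝒜 : Set (ℕ → G)) : Prop :=
  @AnalyticSet (ℕ → G) (@Pi.topologicalSpace ℕ (fun _ => G) (fun _ => ⊥)) 𝒜

/-- The sequences in `𝒜` converge to `1`, and they determine the topology of the group `G`: a set `U` is open if for
all `x ∈ U` and `a ∈ 𝒜` almost all terms of the sequence `x * a` are in `U`. -/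
def Determines {G : Type} [Group G] [TopologicalSpace G] (𝒜 : Set (ℕ → G)) : Prop :=
  (∀ a ∈ 𝒜, Tendsto a atTop (𝓝 1)) ∧
    ∀ U : Set G, (∀ x ∈ U, ∀ a ∈ 𝒜, ∀ᶠ n in atTop, x * a n ∈ U) → IsOpen U

/-- The statement of Q1: every countable sequential group is `k_ω` or metrizable. -/
def StatementOne : Prop :=
  ∀ (G : Type) [Group G] [TopologicalSpace G] [IsTopologicalGroup G] [T2Space G] [Countable G]
    [SequentialSpace G], IsKOmega G ∨ TopologicalSpace.MetrizableSpace G

/-- The statement of Q2: every countable sequential group is analytic. -/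
def StatementTwo : Prop :=
  ∀ (G : Type) [Group G] [TopologicalSpace G] [IsTopologicalGroup G] [T2Space G] [Countable G]
    [SequentialSpace G], IsAnalytic G

/-- The topology of every countable sequential group is determined by an analytic set of sequences. -/
def StatementDet : Prop :=
  ∀ (G : Type) [Group G] [TopologicalSpace G] [IsTopologicalGroup G] [T2Space G] [Countable G]
    [SequentialSpace G], ∃ 𝒜 : Set (ℕ → G), IsAnalyticFamily 𝒜 ∧ Determines 𝒜

theorem result :
    (∀ (G : Type) [Group G] [TopologicalSpace G] [IsTopologicalGroup G] [T2Space G] [Countable G],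
      [(∃ 𝒜 : Set (ℕ → G), IsAnalyticFamily 𝒜 ∧ Determines 𝒜),
        SequentialSpace G ∧ IsAnalyticFamily {a : ℕ → G | Tendsto a atTop (𝓝 1)},
        SequentialSpace G ∧ IsAnalytic G,
        IsKOmega G ∨ TopologicalSpace.MetrizableSpace G].TFAE) ∧
    (StatementOne ↔ StatementDet) ∧ (StatementTwo ↔ StatementDet) := by
  have key : ∀ (G : Type) [Group G] [TopologicalSpace G] [IsTopologicalGroup G] [T2Space G]
      [Countable G],
      [(∃ 𝒜 : Set (ℕ → G), IsAnalyticFamily 𝒜 ∧ Determines 𝒜),
        SequentialSpace G ∧ IsAnalyticFamily {a : ℕ → G | Tendsto a atTop (𝓝 1)},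
        SequentialSpace G ∧ IsAnalytic G,
        IsKOmega G ∨ TopologicalSpace.MetrizableSpace G].TFAE := by
    intro G _ _ _ _ _
    exact Pool.Agent.CSD.main G
  have k1 : ∀ (G : Type) [Group G] [TopologicalSpace G] [IsTopologicalGroup G] [T2Space G]
      [Countable G], (∃ 𝒜 : Set (ℕ → G), IsAnalyticFamily 𝒜 ∧ Determines 𝒜) ↔
        (IsKOmega G ∨ TopologicalSpace.MetrizableSpace G) := by
    intro G _ _ _ _ _
    exact (key G).out 0 3
  have k2 : ∀ (G : Type) [Group G] [TopologicalSpace G] [IsTopologicalGroup G] [T2Space G]
      [Countable G], (∃ 𝒜 : Set (ℕ → G), IsAnalyticFamily 𝒜 ∧ Determines 𝒜) ↔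
        (SequentialSpace G ∧ IsAnalytic G) := by
    intro G _ _ _ _ _
    exact (key G).out 0 2
  refine ⟨key, ⟨?_, ?_⟩, ⟨?_, ?_⟩⟩
  · intro h G _ _ _ _ _ _
    exact (k1 G).2 (h G)
  · intro h G _ _ _ _ _ _
    exact (k1 G).1 (h G)
  · intro h G _ _ _ _ _ hs
    exact (k2 G).2 ⟨hs, h G⟩
  · intro h G _ _ _ _ _ _
    exact ((k2 G).1 (h G)).2

end Pool.Agent.Results.MP_a9e3cf_lc.AnalyticSequences
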